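import Pool.Agent.helper94.AP.SpecU

set_option autoImplicit false

/-!
# AP, row MU2: the sharp master bound for small `c`
-/

namespace Pool.Agent.AP

open Finset

/-- the interval factor -/
theorem MU2_ell (hRW : RW_stmt) (p : ℕ) (N Z : ℝ) (c s k z y : ℕ) (hN : 0 < N) (hZ : 0 < Z) (hc : 1 ≤ c)
    (hs : 1 ≤ s) (hk : 1 ≤ k) (hy : 1 ≤ y) (hz : Z / 2 < z) (hV : 0 < VV p N c Z) :
    ell (4 * (c : ℝ) * (z : ℝ) ^ p) N y / (s * (y : ℝ) ^ 2 * (k : ℝ) ^ 2) ≤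
      2 * 2 ^ p * √N / (VV p N c Z * s * (k : ℝ) ^ 2) := by
  have hc' : (1 : ℝ) ≤ c := by exact_mod_cast hc
  have hs' : (1 : ℝ) ≤ s := by exact_mod_cast hs
  have hk' : (1 : ℝ) ≤ k := by exact_mod_cast hk
  have hy' : (1 : ℝ) ≤ y := by exact_mod_cast hy
  have hz0 : (0 : ℝ) < z := lt_trans (by positivity) hz
  have hNV : N * VV p N c Z ^ 2 = 4 * (c : ℝ) * Z ^ p := by
    rw [VV, Real.sq_sqrt (by positivity)]
    field_simp
  set V := VV p N c Z with hVdef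
  set T : ℝ := 4 * (c : ℝ) * (z : ℝ) ^ p with hT
  have hT0 : 0 < T := by positivity
  have hsN : 0 < √N := Real.sqrt_pos.2 hN
  have h2p : (1 : ℝ) ≤ 2 ^ p := one_le_pow₀ (by norm_num)
  have hTl : √N * V / 2 ^ p ≤ √T := by
    refine Real.le_sqrt_of_sq_le ?_
    rw [div_pow, mul_pow, Real.sq_sqrt hN.le, hNV, div_le_iff₀ (by positivity)]
    have h1 : (Z / 2) ^ p ≤ (z : ℝ) ^ p := pow_le_pow_left₀ (by positivity) hz.le p
    rw [div_pow, div_le_iff₀ (by positivity)] at h1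
    calc 4 * (c : ℝ) * Z ^ p ≤ 4 * (c : ℝ) * ((z : ℝ) ^ p * 2 ^ p) :=
          mul_le_mul_of_nonneg_left h1 (by positivity)
      _ ≤ 4 * (c : ℝ) * ((z : ℝ) ^ p * 2 ^ p) * 2 ^ p :=
          le_mul_of_one_le_right (by positivity) h2p
      _ = T * (2 ^ p) ^ 2 := by rw [hT]; ring
  have hell : ell T N y / (y : ℝ) ^ 2 ≤ 2 * 2 ^ p * √N / V := by
    rw [hRW.1 T N y hT0 hN (by linarith)]
    have hG := (hRW.2.1 ((y : ℝ) * √(N / T)) (by positivity))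
    have hST : 0 < √T := Real.sqrt_pos.2 hT0
    calc 2 * N / √T * Gf (y * √(N / T)) ≤ 2 * N / √T * 1 :=
          mul_le_mul_of_nonneg_left hG.2 (by positivity)
      _ = 2 * N / √T := mul_one _
      _ ≤ 2 * N / (√N * V / 2 ^ p) :=
          div_le_div_of_nonneg_left (by positivity) (by positivity) hTl
      _ = 2 * 2 ^ p * √N / V := by
          have hNN : N = √N * √N := (Real.mul_self_sqrt hN.le).symm
          rw [div_eq_div_iff (by positivity) (by positivity)]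
          calc 2 * N * V = 2 * (√N * √N) * V := by rw [← hNN]
            _ = 2 * 2 ^ p * √N * (√N * V / 2 ^ p) := by
                field_simp
  have e1 : ell T N y / (s * (y : ℝ) ^ 2 * (k : ℝ) ^ 2) =
      ell T N y / (y : ℝ) ^ 2 / (s * (k : ℝ) ^ 2) := by
    rw [div_div]
    ring_nf
  have e2 : 2 * 2 ^ p * √N / (V * s * (k : ℝ) ^ 2) = 2 * 2 ^ p * √N / V / (s * (k : ℝ) ^ 2) := by
    rw [div_div, mul_assoc V]
  rw [e1, e2]
  exact div_le_div_of_nonneg_right hell (by positivity)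

/-- the fibres -/
theorem MU2_fib (hMUX : MUX_stmt) (hKAP : KAP_stmt) (hRW : RW_stmt) (p : ℕ) (hp : Odd p) (N Z : ℝ)
    (c s k z y : ℕ) (hN : 0 < N) (hZ : 0 < Z) (hc : 1 ≤ c) (hs : 1 ≤ s) (hsc : s ∣ c)
    (hk : k = 1 ∨ k.Prime) (hy : 1 ≤ y) (hV : 0 < VV p N c Z) (F : Finset ℤ)
    (hF : ∀ x ∈ F, MS p N c s k Z (z, y, x)) :
    (F.card : ℝ) ≤ (if Nat.Coprime y (c * z) then (kap 2 y ((c * z : ℕ) : ℤ) : ℝ) else 0) *
      (16 * (2 * 2 ^ p * √N / (VV p N c Z * s * (k : ℝ) ^ 2) + 2)) := by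
  have hk1 : 1 ≤ k := by
    rcases hk with h | h
    · omega
    · exact h.one_lt.le
  have hpos : 0 ≤ 16 * (2 * 2 ^ p * √N / (VV p N c Z * s * (k : ℝ) ^ 2) + 2) := by positivity
  have hkap : (0 : ℝ) ≤ kap 2 y ((c * z : ℕ) : ℤ) := by
    exact_mod_cast (hKAP.1 2 y ((c * z : ℕ) : ℤ) hy).1
  rcases F.eq_empty_or_nonempty with rfl | ⟨x₀, hx₀⟩
  · rw [card_empty, Nat.cast_zero]
    refine mul_nonneg ?_ hpos
    split_ifs
    · exact hkap
    · exact le_rfl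
  have hM := hF x₀ hx₀
  have hco : Nat.Coprime (y * k) (c * z) := hM.co
  have hz : Z / 2 < z := hM.z1
  have hz1 : 1 ≤ z := by
    have : (0 : ℝ) < z := lt_trans (by positivity) hz
    exact_mod_cast this
  have h1 := hMUX p N c s k z y hp hN hc hs hk1 hz1 hy hsc hco F
    (fun x hx => ⟨(hF x hx).sx, (hF x hx).dv, (hF x hx).n1, (hF x hx).n2⟩)
  have h2 := MU2_ell hRW p N Z c s k z y hN hZ hc hs hk1 hy hz hV
  have h3 : (kap 2 (y * k) ((c * z : ℕ) : ℤ) : ℝ) ≤ 2 * kap 2 y ((c * z : ℕ) : ℤ) := by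
    exact_mod_cast hKAP.2.1 y k ((c * z : ℕ) : ℤ) hy hk
  have h4 : (0 : ℝ) ≤ kap 2 (y * k) ((c * z : ℕ) : ℤ) := by
    exact_mod_cast (hKAP.1 2 (y * k) ((c * z : ℕ) : ℤ) (Nat.mul_pos hy hk1)).1
  rw [if_pos (Nat.Coprime.coprime_mul_right hco)]
  calc (F.card : ℝ) ≤ 8 * (kap 2 (y * k) ((c * z : ℕ) : ℤ) : ℝ) *
        (ell (4 * (c : ℝ) * (z : ℝ) ^ p) N y / (s * (y : ℝ) ^ 2 * (k : ℝ) ^ 2) + 2) := h1
    _ ≤ 8 * (kap 2 (y * k) ((c * z : ℕ) : ℤ) : ℝ) *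
        (2 * 2 ^ p * √N / (VV p N c Z * s * (k : ℝ) ^ 2) + 2) :=
        mul_le_mul_of_nonneg_left (by linarith) (by linarith)
    _ ≤ 8 * (2 * (kap 2 y ((c * z : ℕ) : ℤ) : ℝ)) *
        (2 * 2 ^ p * √N / (VV p N c Z * s * (k : ℝ) ^ 2) + 2) :=
        mul_le_mul_of_nonneg_right (by linarith) (by positivity)
    _ = _ := by ring

theorem MU2 (hMUX : MUX_stmt) (hKAP : KAP_stmt) (hRW : RW_stmt) (hUBK : UBK_stmt) : MU2r_stmt := by
  classical
  intro p hp η hη ε hε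
  obtain ⟨c₁, N₁, hc₁, hU⟩ := hUBK (η / 2) (by positivity)
  refine ⟨c₁, 192 * 2 ^ p, max N₁ (max 2 ((192 : ℝ) ^ (1 / ε))), hc₁, ?_, ?_⟩
  · have : (1 : ℝ) ≤ 2 ^ p := one_le_pow₀ (by norm_num)
    linarith
  intro N Z c s k hN hZ1 hZ2 hc hcN hs hsc hk hkN hV1 hV2
  have hN1 : N₁ ≤ N := (le_max_left _ _).trans hN
  have hN2 : 2 ≤ N := ((le_max_left _ _).trans (le_max_right _ _)).trans hN
  have hN3 : (192 : ℝ) ^ (1 / ε) ≤ N := ((le_max_right _ _).trans (le_max_right _ _)).trans hN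
  have hN0 : 0 < N := by linarith
  have hZ0 : 0 < Z := lt_of_lt_of_le (Real.rpow_pos_of_pos hN0 η) hZ1
  have hV0 : 0 < VV p N c Z := lt_of_lt_of_le (Real.rpow_pos_of_pos hN0 η) hV1
  have hc' : (1 : ℝ) ≤ c := by exact_mod_cast hc
  have hs' : (1 : ℝ) ≤ s := by exact_mod_cast hs
  have hk1 : (1 : ℝ) ≤ k := by
    have : 1 ≤ k := by
      rcases hk with h | h
      · omega
      · exact h.one_lt.le
    exact_mod_cast this
  have hNV : N * VV p N c Z ^ 2 = 4 * (c : ℝ) * Z ^ p := by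
    rw [VV, Real.sq_sqrt (by positivity)]
    field_simp
  have h192 : (192 : ℝ) ≤ N ^ ε := by
    calc (192 : ℝ) = ((192 : ℝ) ^ (1 / ε)) ^ ε := by
          rw [← Real.rpow_mul (by norm_num), one_div_mul_cancel hε.ne', Real.rpow_one]
      _ ≤ N ^ ε := Real.rpow_le_rpow (by positivity) hN3 hε.le
  have h2N : (2 * N) ^ (η / 2) ≤ N ^ η := by
    calc (2 * N) ^ (η / 2) ≤ (N ^ 2) ^ (η / 2) :=
          Real.rpow_le_rpow (by positivity) (by nlinarith) (by positivity)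
      _ = N ^ η := by
          rw [← Real.rpow_natCast N 2, ← Real.rpow_mul hN0.le]
          congr 1
          push_cast
          ring
  set V := VV p N c Z with hVdef
  have hsum := hU (2 * N) Z (2 * V) (by linarith) (h2N.trans hZ1) (by linarith)
    (h2N.trans (by linarith)) (by linarith) c hc
    (hcN.trans (Real.rpow_le_rpow hN0.le (by linarith) hc₁.le))
  set X : ℕ := ⌈4 * (c : ℝ) * Z ^ p⌉₊ with hX
  set S : Finset (ℕ × ℕ × ℤ) := (Ioc 0 ⌊Z⌋₊ ×ˢ (Ioc 0 ⌊2 * V⌋₊ ×ˢ Icc (-(X : ℤ)) X)).filter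
    (fun t => MS p N c s k Z t) with hS
  have hsub : {t : ℕ × ℕ × ℤ | MS p N c s k Z t} ⊆ (S : Set (ℕ × ℕ × ℤ)) := by
    rintro ⟨z, y, x⟩ (hM : MS p N c s k Z (z, y, x))
    have hz1 : Z / 2 < z := hM.z1
    have hz2 : (z : ℝ) ≤ Z := hM.z2
    have hy1 : 1 ≤ y := hM.y1
    have hn1 : N / 2 * (y : ℝ) ^ 2 < 4 * (c : ℝ) * (z : ℝ) ^ p - (x : ℝ) ^ 2 := hM.n1
    have hzp : 4 * (c : ℝ) * (z : ℝ) ^ p ≤ 4 * (c : ℝ) * Z ^ p :=
      mul_le_mul_of_nonneg_left (pow_le_pow_left₀ (Nat.cast_nonneg z) hz2 p) (by positivity)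
    have hzpos : 0 < z := by
      have : (0 : ℝ) < z := lt_trans (by positivity) hz1
      exact_mod_cast this
    have hy2 : (y : ℝ) ≤ 2 * V := by
      have h1 : N * ((y : ℝ) ^ 2) < N * ((2 * V) ^ 2) := by nlinarith [sq_nonneg (x : ℝ), sq_nonneg V]
      have h2 : (y : ℝ) ^ 2 < (2 * V) ^ 2 := lt_of_mul_lt_mul_left h1 hN0.le
      exact (lt_of_pow_lt_pow_left₀ 2 (by positivity) h2).le
    have hx2 : (x : ℝ) ^ 2 ≤ (X : ℝ) := by
      have h1 : 4 * (c : ℝ) * Z ^ p ≤ X := Nat.le_ceil _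
      have h2 : 0 ≤ N / 2 * (y : ℝ) ^ 2 := by positivity
      linarith
    have hx3 : x ^ 2 ≤ (X : ℤ) := by exact_mod_cast hx2
    have hx4 : |x| ≤ (X : ℤ) := by
      have : |x| ≤ x ^ 2 := by
        rw [← sq_abs]
        rcases eq_or_lt_of_le (abs_nonneg x) with h | h
        · rw [← h]; norm_num
        · nlinarith
      exact this.trans hx3
    rw [hS, mem_coe, mem_filter, mem_product, mem_product]
    refine ⟨⟨mem_Ioc.2 ⟨hzpos, Nat.le_floor hz2⟩, mem_Ioc.2 ⟨hy1, Nat.le_floor hy2⟩,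
      mem_Icc.2 (abs_le.1 hx4)⟩, hM⟩
  have hcard : (S.card : ℝ) = ∑ z ∈ Ioc 0 ⌊Z⌋₊, ∑ y ∈ Ioc 0 ⌊2 * V⌋₊,
      (((Icc (-(X : ℤ)) X).filter (fun x => MS p N c s k Z (z, y, x))).card : ℝ) := by
    rw [hS, card_filter, sum_product, Nat.cast_sum]
    refine sum_congr rfl fun z _ => ?_
    rw [sum_product, Nat.cast_sum]
    refine sum_congr rfl fun y _ => ?_
    rw [card_filter]
  have hfin : ({t : ℕ × ℕ × ℤ | MS p N c s k Z t}.ncard : ℝ) ≤ (S.card : ℝ) := by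
    have := Set.ncard_le_ncard hsub S.finite_toSet
    rw [Set.ncard_coe_finset] at this
    exact_mod_cast this
  have hbound : (S.card : ℝ) ≤ 3 * (Z * (2 * V)) *
      (16 * (2 * 2 ^ p * √N / (V * s * (k : ℝ) ^ 2) + 2)) := by
    rw [hcard]
    calc _ ≤ ∑ z ∈ Ioc 0 ⌊Z⌋₊, ∑ y ∈ Ioc 0 ⌊2 * V⌋₊,
          (if Nat.Coprime y (c * z) then (kap 2 y ((c * z : ℕ) : ℤ) : ℝ) else 0) *
            (16 * (2 * 2 ^ p * √N / (V * s * (k : ℝ) ^ 2) + 2)) := by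
          refine sum_le_sum fun z _ => sum_le_sum fun y hy => ?_
          exact MU2_fib hMUX hKAP hRW p hp N Z c s k z y hN0 hZ0 hc hs hsc hk (mem_Ioc.1 hy).1 hV0 _
            (fun x hx => (mem_filter.1 hx).2)
      _ = (∑ z ∈ Ioc 0 ⌊Z⌋₊, ∑ y ∈ Ioc 0 ⌊2 * V⌋₊,
          (if Nat.Coprime y (c * z) then (kap 2 y ((c * z : ℕ) : ℤ) : ℝ) else 0)) *
            (16 * (2 * 2 ^ p * √N / (V * s * (k : ℝ) ^ 2) + 2)) := by
          rw [sum_mul]
          refine sum_congr rfl fun z _ => ?_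
          rw [sum_mul]
      _ ≤ _ := mul_le_mul_of_nonneg_right hsum (by positivity)
  refine (hfin.trans hbound).trans ?_
  have e1 : 3 * (Z * (2 * V)) * (16 * (2 * 2 ^ p * √N / (V * s * (k : ℝ) ^ 2) + 2)) =
      192 * 2 ^ p * (Z * √N / (s * (k : ℝ) ^ 2)) + 192 * (Z * V) := by
    field_simp
    ring
  rw [e1]
  have e2 : 192 * (Z * V) ≤ N ^ ε * (Z * V) := mul_le_mul_of_nonneg_right h192 (by positivity)
  linarith

end Pool.Agent.AP
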